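import Pool.Agent.helper10.FL.SpecV

/-!
# MP_70a088_an, full lattice, part V: row IDX: the index of `b` is large
-/

set_option autoImplicit false

open Complex Metric Set Filter Topology MeasureTheory
open STA

noncomputable section

namespace FL

theorem IDX_one (hRRB : RRB_stmt) (hSTN : STN_stmt) (Y : Sys) (κ e e' s s' c₁ : ℝ) (a m k b C l : ℕ) (hok : SOk Y)
    (hnp : NPP Y κ e s c₁ a m) (hoi : OutI Y e' s' a m) (hsw : SLW Y a k b)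
    (hb : ((C : ℝ) + 1) * ‖T Y b 0‖ ≤ 1 / 10 ^ 8) (hl : (l : ℝ) * ‖T Y a 0‖ ≤ C * ‖T Y b 0‖) : l * a < b := by
  by_contra hcon
  rw [not_lt] at hcon
  obtain ⟨-, -, hr3, -⟩ := hRRB
  obtain ⟨-, hadd, -⟩ := hr3 Y hok
  obtain ⟨hst, -⟩ := hSTN Y κ e s c₁ a m hok hnp
  have ha : 0 < a := hoi.a1
  have hTb : (0 : ℝ) ≤ ‖T Y b 0‖ := norm_nonneg _
  have hC : (0 : ℝ) ≤ (C : ℝ) * ‖T Y b 0‖ := by positivity
  have hCb : (C : ℝ) * ‖T Y b 0‖ ≤ 1 / 10 ^ 8 := by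
    have : ((C : ℝ) + 1) * ‖T Y b 0‖ = C * ‖T Y b 0‖ + ‖T Y b 0‖ := by ring
    linarith
  have hb8 : ‖T Y b 0‖ ≤ 1 / 10 ^ 8 := by
    have : ((C : ℝ) + 1) * ‖T Y b 0‖ = C * ‖T Y b 0‖ + ‖T Y b 0‖ := by ring
    linarith
  set q : ℕ := b / a with hq
  set i : ℕ := b % a with hi
  have hdm : q * a + i = b := by
    rw [hq, hi, mul_comm]
    exact Nat.div_add_mod b a
  have hia : i < a := Nat.mod_lt _ ha
  have hql : q ≤ l := by
    have h1 : q * a ≤ l * a := by omega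
    exact Nat.le_of_mul_le_mul_right h1 ha
  have hqT : (q : ℝ) * ‖T Y a 0‖ ≤ 1 / 10 ^ 8 := by
    have h1 : (q : ℝ) * ‖T Y a 0‖ ≤ l * ‖T Y a 0‖ := by
      have : (q : ℝ) ≤ l := by exact_mod_cast hql
      exact mul_le_mul_of_nonneg_right this (norm_nonneg _)
    linarith
  have hqT0 : 0 ≤ (q : ℝ) * ‖T Y a 0‖ := by positivity
  rcases Nat.eq_zero_or_pos i with h0 | h0
  · apply hsw.ns
    refine ⟨q, by omega, ?_⟩
    have h1 : (1 : ℝ) / 10 ^ 8 ≤ 1 / 10 ^ 7 := by norm_num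
    linarith
  · -- the point `x`
    have hx : ‖Y.f^[q * a] 0‖ ≤ 2 / 10 ^ 8 := by
      rcases Nat.eq_zero_or_pos q with hq0 | hq0
      · rw [hq0, Nat.zero_mul, Function.iterate_zero_apply, norm_zero]
        norm_num
      · have h8 : (1 : ℝ) / 10 ^ 8 ≤ 2 / 10 ^ 7 := by norm_num
        obtain ⟨-, h2⟩ := hst q hq0 (by linarith)
        have h3 := h2 0 (by simp)
        have h4 : T Y (q * a) 0 = Y.f^[q * a] 0 := by
          unfold T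
          rw [sub_zero]
        rw [h4] at h3
        have h5 : ‖Y.f^[q * a] 0‖ ≤ ‖Y.f^[q * a] 0 - q * T Y a 0‖ + ‖(q : ℂ) * T Y a 0‖ := by
          have := norm_add_le (Y.f^[q * a] 0 - q * T Y a 0) ((q : ℂ) * T Y a 0)
          rwa [sub_add_cancel] at this
        rw [norm_mul, Complex.norm_natCast] at h5
        have h6 : ((q : ℝ) * ‖T Y a 0‖) ^ 2 ≤ 1 / 10 ^ 8 := by
          have h7 : ((q : ℝ) * ‖T Y a 0‖) ^ 2 ≤ (1 / 10 ^ 8) ^ 2 := pow_le_pow_left₀ hqT0 hqT 2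
          have h9 : ((1 : ℝ) / 10 ^ 8) ^ 2 ≤ 1 / 10 ^ 8 := by norm_num
          linarith
        have h10 : (2 : ℝ) / 10 ^ 8 = 1 / 10 ^ 8 + 1 / 10 ^ 8 := by norm_num
        linarith
    have h1 := hadd i (q * a) 0
    have h2 : i + q * a = b := by omega
    rw [h2] at h1
    have h4 : T Y (q * a) 0 = Y.f^[q * a] 0 := by
      unfold T
      rw [sub_zero]
    have h5 : T Y i (Y.f^[q * a] 0) = T Y b 0 - Y.f^[q * a] 0 := by
      rw [h1, h4]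
      ring
    have h6 := hoi.fa i h0 hia (Y.f^[q * a] 0) (by
      rw [mem_ball_zero_iff]
      have : (2 : ℝ) / 10 ^ 8 < 9 / 10 := by norm_num
      linarith)
    rw [h5] at h6
    have h7 := norm_sub_le (T Y b 0) (Y.f^[q * a] 0)
    have h8 : (1 : ℝ) / 10 ^ 8 + 2 / 10 ^ 8 < 1 / 2 := by norm_num
    linarith

theorem IDX (hRRB : RRB_stmt) (hSTN : STN_stmt) (hPVF : STA.PVF_stmt) : IDX_stmt := by
  intro Y₀ U y r e s a m ζ k b hT C
  have hS := hT.th.s2.sq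
  have hC1 : (0 : ℝ) < (C : ℝ) + 1 := by positivity
  have hε : (0 : ℝ) < 1 / 10 ^ 8 / ((C : ℝ) + 1) := by positivity
  have hsm := (Metric.tendsto_nhds.1 hT.sm) _ hε
  filter_upwards [hsm, hT.sw, hS.np, hT.th.s2.oi 1 one_pos] with j hj hsw hnp hoi
  intro l hl
  have hok : SOk (PVs (y j) (r j) Y₀) := (hPVF Y₀ (y j) (r j) (hS.r0 j)).2.2.1 hS.ok
  refine IDX_one hRRB hSTN _ _ _ _ _ _ _ (a j) (m j) (k j) (b j) C l hok hnp hoi hsw ?_ hl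
  rw [Real.dist_eq, sub_zero] at hj
  have h1 : ‖T (PVs (y j) (r j) Y₀) (b j) 0‖ ≤ 2 ^ (k j) * ‖T (PVs (y j) (r j) Y₀) (b j) 0‖ := by
    have h2 : (1 : ℝ) ≤ 2 ^ (k j) := one_le_pow₀ (by norm_num)
    nlinarith [norm_nonneg (T (PVs (y j) (r j) Y₀) (b j) 0)]
  have h3 : 2 ^ (k j) * ‖T (PVs (y j) (r j) Y₀) (b j) 0‖ < 1 / 10 ^ 8 / ((C : ℝ) + 1) := (le_abs_self _).trans_lt hj
  have h4 : ‖T (PVs (y j) (r j) Y₀) (b j) 0‖ ≤ 1 / 10 ^ 8 / ((C : ℝ) + 1) := by linarith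
  rw [le_div_iff₀ hC1] at h4
  linarith

end FL
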